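import Mathlib
import Pool.Agent.Lib.P5aaf1b.Defs
import Pool.Agent.Lib.P5aaf1bX.GapDeg

set_option autoImplicit false

namespace Pool.Agent.Results.MP_5aaf1b_ag.AllFields

open Pool.Agent.Lib.P5aaf1b

/-- Let `k` be any field (of any characteristic), `n ≥ 2`, `r ≥ 1`, and let `I` be a fat points
ideal of `P^n`, not all `m_i` zero. Write `⌈r/n⌉ = (r + n - 1) / n`.
(1) The full containment `I^(rn) ⊆ 𝔪^(r(n-1)) I^r` holds if no `m_i` is `1` or `2`.
(2) If no `m_i` is `1` it holds for `r = 1` and for every `r > n (n - 3)`; so for `n ≤ 3` it holds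
for all `r`.
(3) For `n = 2` and all `m_i` it holds for the forms of degree `D` with `2 (D mod r) < r`.
(4) If all `m_i ≥ 1` are at least `M ≥ 2` then `I^(rn) ⊆ 𝔪^(r(n-1)(M-1) - (n-2) + ⌈r/n⌉) I^r`.
(5) Every `F` vanishing to order at least `r (m_i + n - 1) + s + (n - 2)` at every point with
`m_i ≥ 1`, where `s ≥ 1`, lies in `𝔪^(s + ⌈r/n⌉) I^r`; (6) for `s = 0` order
`r (m_i + n - 1)` is enough, and (7) for forms `F` of degree `D` even `F ∈ 𝔪^(D - r x) I^r` with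
`x = ⌊(n D - r) / (n r)⌋`.
(8) Always `I^(rn + s + (n - 2)) ⊆ 𝔪^(s + ⌈r/n⌉) I^r` for `s ≥ 1`, and (9)
`I^(rn) ⊆ 𝔪^⌈r/n⌉ I^r`. -/
theorem result (k : Type) [Field k] (n : ℕ) (hn : 2 ≤ n) (c : ℕ)
    (P : Fin c → Projectivization k (Fin (n + 1) → k)) (_hP : Function.Injective P)
    (m : Fin c → ℕ) (hm : ∃ i, 1 ≤ m i) (r : ℕ) (hr : 1 ≤ r) :
    ((∀ i, m i ≠ 1 ∧ m i ≠ 2) →
      symb P m (r * n) ≤ irr k n ^ (r * (n - 1)) * symb P m 1 ^ r) ∧
    ((∀ i, m i ≠ 1) → (r = 1 ∨ n * (n - 3) < r) →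
      symb P m (r * n) ≤ irr k n ^ (r * (n - 1)) * symb P m 1 ^ r) ∧
    (n = 2 → ∀ (D : ℕ) (F : MvPolynomial (Fin (n + 1)) k), F.IsHomogeneous D →
      2 * (D % r) < r → F ∈ symb P m (r * n) →
      F ∈ irr k n ^ (r * (n - 1)) * symb P m 1 ^ r) ∧
    (∀ M, 2 ≤ M → (∀ i, m i = 0 ∨ M ≤ m i) →
      symb P m (r * n) ≤
        irr k n ^ (r * (n - 1) * (M - 1) - (n - 2) + (r + n - 1) / n) * symb P m 1 ^ r) ∧
    (∀ s, 1 ≤ s → ∀ F : MvPolynomial (Fin (n + 1)) k,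
      (∀ i, 1 ≤ m i → F ∈ pointIdeal (P i) ^ (r * (m i + n - 1) + (s + (n - 2)))) →
      F ∈ irr k n ^ (s + (r + n - 1) / n) * symb P m 1 ^ r) ∧
    (∀ F : MvPolynomial (Fin (n + 1)) k,
      (∀ i, 1 ≤ m i → F ∈ pointIdeal (P i) ^ (r * (m i + n - 1))) →
      F ∈ irr k n ^ ((r + n - 1) / n) * symb P m 1 ^ r) ∧
    (∀ (D : ℕ) (F : MvPolynomial (Fin (n + 1)) k), F.IsHomogeneous D →
      (∀ i, 1 ≤ m i → F ∈ pointIdeal (P i) ^ (r * (m i + n - 1))) →
      F ∈ irr k n ^ (D - r * ((n * D - r) / (n * r))) * symb P m 1 ^ r) ∧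
    (∀ s, 1 ≤ s → symb P m (r * n + s + (n - 2)) ≤
      irr k n ^ (s + (r + n - 1) / n) * symb P m 1 ^ r) ∧
    symb P m (r * n) ≤ irr k n ^ ((r + n - 1) / n) * symb P m 1 ^ r := by
  obtain ⟨p, hp⟩ := CharP.exists k
  have h4 : ∀ s, 1 ≤ s → ∀ F : MvPolynomial (Fin (n + 1)) k,
      (∀ i, 1 ≤ m i → F ∈ pointIdeal (P i) ^ (r * (m i + n - 1) + (s + (n - 2)))) →
      F ∈ irr k n ^ (s + (r + n - 1) / n) * symb P m 1 ^ r := by
    intro s hs F hF
    rw [symb_eq, irr_eq]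
    simp_rw [one_mul]
    apply Pool.Agent.Lib.P5aaf1bX.surplus_add p hn (fun i => (P i).rep_nonzero) hm hr hs
    intro i hi
    have := hF i hi
    rwa [pointIdeal_eq] at this
  have h5 : ∀ F : MvPolynomial (Fin (n + 1)) k,
      (∀ i, 1 ≤ m i → F ∈ pointIdeal (P i) ^ (r * (m i + n - 1))) →
      F ∈ irr k n ^ ((r + n - 1) / n) * symb P m 1 ^ r := by
    intro F hF
    rw [symb_eq, irr_eq]
    simp_rw [one_mul]
    apply Pool.Agent.Lib.P5aaf1bX.gap_frac' hn (fun i => (P i).rep_nonzero) hm hr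
    intro i hi
    have := hF i hi
    rwa [pointIdeal_eq] at this
  have h7 : ∀ (D : ℕ) (F : MvPolynomial (Fin (n + 1)) k), F.IsHomogeneous D →
      (∀ i, 1 ≤ m i → F ∈ pointIdeal (P i) ^ (r * (m i + n - 1))) →
      F ∈ irr k n ^ (D - r * ((n * D - r) / (n * r))) * symb P m 1 ^ r := by
    intro D F hFD hF
    rw [symb_eq, irr_eq]
    simp_rw [one_mul]
    apply Pool.Agent.Lib.P5aaf1bX.gap_deg hn (fun i => (P i).rep_nonzero) hm hr hFD
    intro i hi
    have := hF i hi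
    rwa [pointIdeal_eq] at this
  have h8 : n = 2 → ∀ (D : ℕ) (F : MvPolynomial (Fin (n + 1)) k), F.IsHomogeneous D →
      2 * (D % r) < r → F ∈ symb P m (r * n) →
      F ∈ irr k n ^ (r * (n - 1)) * symb P m 1 ^ r := by
    intro hn2 D F hFD hD hF
    subst hn2
    rw [symb_eq] at hF
    rw [symb_eq, irr_eq]
    simp_rw [one_mul]
    rw [Ideal.mem_iInf] at hF
    have e1 : r * (2 - 1) = r := by rw [show 2 - 1 = 1 from rfl, mul_one]
    rw [e1]
    apply Pool.Agent.Lib.P5aaf1bX.plane_deg (fun i => (P i).rep_nonzero) hm hr hD hFD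
    intro i hi
    refine Ideal.pow_le_pow_right ?_ (hF i)
    rw [mul_assoc]
    apply Nat.mul_le_mul_left
    omega
  have h9 : (∀ i, m i ≠ 1) → symb P m n ≤ irr k n ^ (n - 1) * symb P m 1 := by
    intro h
    rw [symb_eq, symb_eq, irr_eq]
    simp_rw [one_mul]
    exact Pool.Agent.Lib.P5aaf1bX.raise_one hn (fun i => (P i).rep_nonzero) hm h
  -- symbolic powers
  have h0 : ∀ (s N : ℕ), 1 ≤ s →
      (∀ i, 1 ≤ m i → r * (m i + n - 1) + (s + (n - 2)) ≤ N * m i) →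
      symb P m N ≤ irr k n ^ (s + (r + n - 1) / n) * symb P m 1 ^ r := by
    intro s N hs hN F hF
    apply h4 s hs F
    intro i hi
    rw [symb, Ideal.mem_iInf] at hF
    exact Ideal.pow_le_pow_right (hN i hi) (hF i)
  have h3 : ∀ M, 2 ≤ M → (∀ i, m i = 0 ∨ M ≤ m i) →
      symb P m (r * n) ≤
        irr k n ^ (r * (n - 1) * (M - 1) - (n - 2) + (r + n - 1) / n) * symb P m 1 ^ r := by
    intro M hM h
    obtain ⟨b, rfl⟩ : ∃ b, n = b + 2 := ⟨n - 2, by omega⟩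
    obtain ⟨M', rfl⟩ : ∃ M', M = M' + 2 := ⟨M - 2, by omega⟩
    have e1 : b + 2 - 1 = b + 1 := rfl
    have e2 : b + 2 - 2 = b := rfl
    have e3 : M' + 2 - 1 = M' + 1 := rfl
    have hb : b + 1 ≤ r * (b + 1) * (M' + 1) := by
      have h1 : 1 * (b + 1) * 1 ≤ r * (b + 1) * (M' + 1) :=
        Nat.mul_le_mul (Nat.mul_le_mul_right _ hr) (by omega)
      omega
    apply h0
    · rw [e1, e2, e3]
      omega
    · intro i hi
      obtain ⟨w, hw⟩ : ∃ w, m i = M' + 2 + w := ⟨m i - (M' + 2), by have := h i; omega⟩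
      rw [e1, e2, e3, hw]
      have e4 : r * (b + 2) * (M' + 2 + w) =
          r * (M' + 2 + w + (b + 1)) + (r * (b + 1) * (M' + 1) + r * (b + 1) * w) := by ring
      have e5 : M' + 2 + w + (b + 2) - 1 = M' + 2 + w + (b + 1) := by omega
      rw [e4, e5]
      omega
  have hmono : ∀ a b : ℕ, a ≤ b → irr k n ^ b * symb P m 1 ^ r ≤ irr k n ^ a * symb P m 1 ^ r :=
    fun a b hab => Ideal.mul_mono (Ideal.pow_le_pow_right hab) le_rfl
  refine ⟨fun h => ?_, fun h hrn => ?_, h8, h3, h4, h5, h7, fun s hs => ?_, fun F hF => ?_⟩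
  · -- no `1` and no `2`
    refine (h3 3 (by omega) fun i => by have := h i; omega).trans (hmono _ _ ?_)
    have h1 : 1 * (n - 1) ≤ r * (n - 1) := Nat.mul_le_mul_right _ hr
    have h2 : r * (n - 1) * (3 - 1) = r * (n - 1) + r * (n - 1) := by ring
    generalize (r + n - 1) / n = e
    omega
  · rcases hrn with rfl | hrn
    · rw [one_mul, one_mul, pow_one]
      exact h9 h
    refine (h3 2 le_rfl fun i => by have := h i; omega).trans (hmono _ _ ?_)
    have h1 : 1 * (n - 1) ≤ r * (n - 1) := Nat.mul_le_mul_right _ hr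
    have h2 : r * (n - 1) * (2 - 1) = r * (n - 1) := by
      rw [show 2 - 1 = 1 from rfl, mul_one]
    have h6 : n - 2 ≤ (r + n - 1) / n := by
      rw [Nat.le_div_iff_mul_le (by omega)]
      rcases Nat.lt_or_ge n 3 with h7 | h7
      · have : n - 2 = 0 := by omega
        rw [this, zero_mul]
        exact Nat.zero_le _
      · obtain ⟨b, rfl⟩ : ∃ b, n = b + 3 := ⟨n - 3, by omega⟩
        have e1 : b + 3 - 2 = b + 1 := by omega
        have e2 : b + 3 - 3 = b := by omega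
        rw [e2] at hrn
        rw [e1]
        have e3 : (b + 1) * (b + 3) = (b + 3) * b + (b + 3) := by ring
        omega
    omega
  · apply h0 s _ hs
    intro i hi
    obtain ⟨w, hw⟩ : ∃ w, m i = w + 1 := ⟨m i - 1, by omega⟩
    obtain ⟨b, rfl⟩ : ∃ b, n = b + 2 := ⟨n - 2, by omega⟩
    have e2 : b + 2 - 2 = b := rfl
    rw [hw, e2]
    have e3 : w + 1 + (b + 2) - 1 = w + b + 2 := by omega
    have e4 : (r * (b + 2) + s + b) * (w + 1) =
        r * (w + b + 2) + (s + b) + (r * (b + 1) * w + (s + b) * w) := by ring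
    rw [e3, e4]
    omega
  · apply h5
    intro i hi
    rw [symb, Ideal.mem_iInf] at hF
    refine Ideal.pow_le_pow_right ?_ (hF i)
    obtain ⟨w, hw⟩ : ∃ w, m i = w + 1 := ⟨m i - 1, by omega⟩
    obtain ⟨b, rfl⟩ : ∃ b, n = b + 2 := ⟨n - 2, by omega⟩
    rw [hw]
    have e3 : w + 1 + (b + 2) - 1 = w + b + 2 := by omega
    have e4 : r * (b + 2) * (w + 1) = r * (w + b + 2) + r * (b + 1) * w := by ring
    rw [e3, e4]
    omega

end Pool.Agent.Results.MP_5aaf1b_ag.AllFields
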