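import Mathlib
import Pool.Agent.Lib.P5aaf1b.Defs
import Pool.Agent.Lib.P5aaf1b.EulerT

set_option autoImplicit false

namespace Pool.Agent.Results.MP_5aaf1b_ag.CharZero

open Pool.Agent.Lib.P5aaf1b

/-- Let `I` be a fat points ideal of `P^n`, `n ≥ 2`, over a field of characteristic zero. Then
`I^(rn) ⊆ 𝔪^r I^r` for all `r`, which for `n = 2` is the Harbourne-Huneke containment
`I^(rn) ⊆ 𝔪^(r(n-1)) I^r`; if no multiplicity equals `1` then even `I^(rn) ⊆ 𝔪^(rn) I^r`; and
`I^(r(2n-2)) ⊆ 𝔪^(r(n-1)) I^r` always. More generally every `F` vanishing to order at least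
`r (m_i + t + n - 1)` at every point with `m_i ≥ 1` lies in `𝔪^(r(t+1)) I^r`. The last part is the
case `t = 0` for forms of degree `D` over fields of characteristic `p > (2r-1)D`. -/
theorem result (k : Type) [Field k] (p : ℕ) [CharP k p] (n : ℕ) (hn : 2 ≤ n) (s : ℕ)
    (P : Fin s → Projectivization k (Fin (n + 1) → k)) (_ : Function.Injective P)
    (m : Fin s → ℕ) (hm : ∃ i, 1 ≤ m i) (r : ℕ) (hr : 1 ≤ r) :
    (p = 0 →
      symb P m (r * n) ≤ irr k n ^ r * symb P m 1 ^ r ∧
      ((∀ i, m i ≠ 1) → symb P m (r * n) ≤ irr k n ^ (r * n) * symb P m 1 ^ r) ∧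
      symb P m (r * (2 * n - 2)) ≤ irr k n ^ (r * (n - 1)) * symb P m 1 ^ r ∧
      ∀ (t : ℕ) (F : MvPolynomial (Fin (n + 1)) k),
        (∀ i, 1 ≤ m i → F ∈ pointIdeal (P i) ^ (r * (m i + t + n - 1))) →
        F ∈ irr k n ^ (r * (t + 1)) * symb P m 1 ^ r) ∧
    ∀ (D : ℕ) (F : MvPolynomial (Fin (n + 1)) k), F.IsHomogeneous D → (2 * r - 1) * D < p →
      (∀ i, 1 ≤ m i → F ∈ pointIdeal (P i) ^ (r * (m i + n - 1))) →
      F ∈ irr k n ^ r * symb P m 1 ^ r := by
  constructor
  · intro hp
    subst hp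
    have := CharP.charP_to_charZero k
    have key : ∀ (t : ℕ) (F : MvPolynomial (Fin (n + 1)) k),
        (∀ i, 1 ≤ m i → F ∈ pointIdeal (P i) ^ (r * (m i + t + n - 1))) →
        F ∈ irr k n ^ (r * (t + 1)) * symb P m 1 ^ r := by
      intro t F hmem
      rw [symb_eq, irr_eq]
      simp_rw [one_mul]
      apply gap_t hn (fun i => (P i).rep_nonzero) hm hr
      intro i hi
      have := hmem i hi
      rwa [pointIdeal_eq] at this
    have key2 : ∀ (t N : ℕ), (∀ i, 1 ≤ m i → r * (m i + t + n - 1) ≤ N * m i) →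
        symb P m N ≤ irr k n ^ (r * (t + 1)) * symb P m 1 ^ r := by
      intro t N hN F hF
      apply key
      intro i hi
      rw [symb, Ideal.mem_iInf] at hF
      exact Ideal.pow_le_pow_right (hN i hi) (hF i)
    refine ⟨?_, ?_, ?_, key⟩
    · have h := key2 0 (r * n) (by
        intro i hi
        rw [mul_assoc]
        apply Nat.mul_le_mul_left
        obtain ⟨w, hw⟩ : ∃ w, m i = w + 1 := ⟨m i - 1, by omega⟩
        obtain ⟨b, rfl⟩ : ∃ b, n = b + 2 := ⟨n - 2, by omega⟩
        rw [hw]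
        have h2 : (b + 2) * (w + 1) = (b + 1) * w + (w + 1 + 0 + (b + 2) - 1) := by
          have : w + 1 + 0 + (b + 2) - 1 = w + b + 2 := by omega
          rw [this]
          ring
        omega)
      rwa [zero_add, mul_one] at h
    · intro hne
      have h := key2 (n - 1) (r * n) (by
        intro i hi
        rw [mul_assoc]
        apply Nat.mul_le_mul_left
        have := hne i
        obtain ⟨w, hw⟩ : ∃ w, m i = w + 2 := ⟨m i - 2, by omega⟩
        obtain ⟨b, rfl⟩ : ∃ b, n = b + 1 := ⟨n - 1, by omega⟩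
        rw [hw]
        have h2 : (b + 1) * (w + 2) = b * w + (w + 2 + (b + 1 - 1) + (b + 1) - 1) := by
          have : w + 2 + (b + 1 - 1) + (b + 1) - 1 = w + 2 + 2 * b := by omega
          rw [this]
          ring
        omega)
      have h3 : n - 1 + 1 = n := by omega
      rwa [h3] at h
    · have h := key2 (n - 2) (r * (2 * n - 2)) (by
        intro i hi
        rw [mul_assoc]
        apply Nat.mul_le_mul_left
        obtain ⟨w, hw⟩ : ∃ w, m i = w + 1 := ⟨m i - 1, by omega⟩
        obtain ⟨b, rfl⟩ : ∃ b, n = b + 2 := ⟨n - 2, by omega⟩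
        rw [hw]
        have h0 : 2 * (b + 2) - 2 = 2 * b + 2 := by omega
        have h1 : w + 1 + (b + 2 - 2) + (b + 2) - 1 = w + 2 * b + 2 := by omega
        rw [h0, h1]
        have h2 : (2 * b + 2) * (w + 1) = (2 * b + 1) * w + (w + 2 * b + 2) := by ring
        omega)
      have h3 : n - 2 + 1 = n - 1 := by omega
      rwa [h3] at h
  · intro D F hF hp hmem
    rw [symb_eq, irr_eq]
    simp_rw [one_mul]
    apply gap_one hn (fun i => (P i).rep_nonzero) hm hr _ hF
    · intro i hi
      have := hmem i hi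
      rwa [pointIdeal_eq] at this
    · rcases CharP.char_is_prime_or_zero k p with h | h
      · rw [Ne, CharP.cast_eq_zero_iff k p, h.dvd_factorial]
        omega
      · omega

end Pool.Agent.Results.MP_5aaf1b_ag.CharZero
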