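import Mathlib
import Pool.Agent.Lib.P5aaf1b.Defs
import Pool.Agent.Lib.P5aaf1b.ChudGen

set_option autoImplicit false

namespace Pool.Agent.Results.MP_5aaf1b_ag.Equigenerated

open Pool.Agent.Lib.P5aaf1b

/-- the ideal `I` is contained in `𝔪^α` and generated by its forms of degrees at most `ω` -/
def GenBetween {k : Type} [Field k] {n : ℕ} (I : Ideal (MvPolynomial (Fin (n + 1)) k))
    (α ω : ℕ) : Prop :=
  I ≤ irr k n ^ α ∧ I = Ideal.span {G | G ∈ I ∧ ∃ d ≤ ω, G.IsHomogeneous d}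

/-- Let `I` be a fat points ideal of `P^n`, `n ≥ 2`, over any field. If `I` is generated by forms of
one degree `α`, then the Harbourne-Huneke containment `I^(rn) ⊆ 𝔪^(r(n-1)) I^r` holds for all `r`.
More generally, if `I ⊆ 𝔪^α` is generated by forms of degrees at most `ω`, then every `F` vanishing
to order at least `r (m_i + n - 1)` at every point with `m_i ≥ 1` lies in
`𝔪^(r(n-1-(ω-α))) I^r`. -/
theorem result :
  ∀ (k : Type) [Field k] (n : ℕ), 2 ≤ n →
    ∀ (s : ℕ) (P : Fin s → Projectivization k (Fin (n + 1) → k)), Function.Injective P →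
    ∀ (m : Fin s → ℕ), (∃ i, 1 ≤ m i) → ∀ α ω r : ℕ, 1 ≤ r →
    (GenBetween (symb P m 1) α α →
      symb P m (r * n) ≤ irr k n ^ (r * (n - 1)) * symb P m 1 ^ r) ∧
    (GenBetween (symb P m 1) α ω → ∀ F : MvPolynomial (Fin (n + 1)) k,
      (∀ i, 1 ≤ m i → F ∈ pointIdeal (P i) ^ (r * (m i + n - 1))) →
      F ∈ irr k n ^ (r * (α + n - 1 - ω)) * symb P m 1 ^ r) := by
  have part2 : (∀ (k : Type) [Field k] (n : ℕ), 2 ≤ n →
    ∀ (s : ℕ) (P : Fin s → Projectivization k (Fin (n + 1) → k)), Function.Injective P →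
    ∀ (m : Fin s → ℕ), (∃ i, 1 ≤ m i) →
    ∀ α ω : ℕ, GenBetween (symb P m 1) α ω →
    ∀ r : ℕ, 1 ≤ r → ∀ F : MvPolynomial (Fin (n + 1)) k,
      (∀ i, 1 ≤ m i → F ∈ pointIdeal (P i) ^ (r * (m i + n - 1))) →
      F ∈ irr k n ^ (r * (α + n - 1 - ω)) * symb P m 1 ^ r) := by
    rintro k _ n hn s P _ m hm α ω ⟨hα, hω⟩ r hr F hmem
    have e1 : symb P m 1 = ⨅ i, Pool.Agent.Lib.P5c592f.Iv (P i).rep ^ m i := by
      rw [symb_eq]
      simp_rw [one_mul]
    have hgen : symb P m 1 ≤ low (symb P m 1) (ω + 1) := by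
      refine hω.le.trans (Ideal.span_mono ?_)
      rintro G ⟨hG, d, hd, hGd⟩
      exact ⟨hG, d, by omega, hGd⟩
    rw [← MvPolynomial.sum_homogeneousComponent F]
    apply Ideal.sum_mem
    intro d _
    rw [irr_eq, e1]
    rw [e1] at hgen hα
    apply gap_gen hn (fun i => (P i).rep_nonzero) hm hα hgen hr
      (MvPolynomial.homogeneousComponent_isHomogeneous d F)
    intro i hi
    have h1 := hmem i hi
    rw [pointIdeal_eq] at h1
    exact Pool.Agent.Lib.Chud.component_mem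
      (Pool.Agent.Lib.Chud.isHomogeneous_pow (Pool.Agent.Lib.Chud.isHomogeneous_Iv _) _) h1 d
  intro k _ n hn s P hP m hm α ω r hr
  refine ⟨fun hgen F hF => ?_, fun hgen => part2 k n hn s P hP m hm α ω hgen r hr⟩
  have h1 := part2 k n hn s P hP m hm α α hgen r hr F (by
    intro i hi
    rw [symb, Ideal.mem_iInf] at hF
    refine Ideal.pow_le_pow_right ?_ (hF i)
    rw [mul_assoc]
    apply Nat.mul_le_mul_left
    obtain ⟨w, hw⟩ : ∃ w, m i = w + 1 := ⟨m i - 1, by omega⟩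
    obtain ⟨b, rfl⟩ : ∃ b, n = b + 2 := ⟨n - 2, by omega⟩
    rw [hw]
    have h2 : (b + 2) * (w + 1) = (b + 1) * w + (w + 1 + (b + 2) - 1) := by
      have : w + 1 + (b + 2) - 1 = w + b + 2 := by omega
      rw [this]
      ring
    omega)
  have h3 : α + n - 1 - α = n - 1 := by omega
  rwa [h3] at h1

end Pool.Agent.Results.MP_5aaf1b_ag.Equigenerated
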