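import Mathlib
import Pool.Agent.Lib.P5aaf1b.Defs
import Pool.Agent.Lib.P5aaf1b.ChudGen

set_option autoImplicit false

namespace Pool.Agent.Results.MP_5aaf1b_ag.InitialDegree

open Pool.Agent.Lib.P5aaf1b

/-- The degree bound behind the Harbourne-Huneke containment, for all fat points ideals over all
fields: if all forms in `I^(t)` have degree at least `A`, that is `I^(t) ⊆ 𝔪^A`, then
`I^(r(t+n-1)) ⊆ 𝔪^(r(A+n-1))` for every `r`; more precisely, every `F` vanishing to order at least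
`r (t m_i + n - 1)` at every point with `m_i ≥ 1` lies in `𝔪^(r(A+n-1))`. For `t = 1` this says
`I^(rn) ⊆ 𝔪^(r(n-1)) (𝔪^A)^r` with `A` the initial degree of `I`. -/
theorem result :
  ∀ (k : Type) [Field k] (n : ℕ), 1 ≤ n →
  ∀ (s : ℕ) (P : Fin s → Projectivization k (Fin (n + 1) → k)), Function.Injective P →
  ∀ (m : Fin s → ℕ), (∃ i, 1 ≤ m i) →
  ∀ (t A : ℕ), 1 ≤ t → symb P m t ≤ irr k n ^ A → ∀ r : ℕ, 1 ≤ r →
    symb P m (r * (t + n - 1)) ≤ irr k n ^ (r * (A + n - 1)) ∧
    ∀ F : MvPolynomial (Fin (n + 1)) k,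
      (∀ i, 1 ≤ m i → F ∈ pointIdeal (P i) ^ (r * (t * m i + n - 1))) →
      F ∈ irr k n ^ (r * (A + n - 1)) := by
  intro k _ n hn s P _ m hm t A ht hA r _
  have part2 : ∀ F : MvPolynomial (Fin (n + 1)) k,
      (∀ i, 1 ≤ m i → F ∈ pointIdeal (P i) ^ (r * (t * m i + n - 1))) →
      F ∈ irr k n ^ (r * (A + n - 1)) := by
    intro F hF
    rw [symb_eq] at hA
    rw [← MvPolynomial.sum_homogeneousComponent F]
    apply Ideal.sum_mem
    intro d _
    rcases eq_or_ne (MvPolynomial.homogeneousComponent d F) 0 with h0 | h0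
    · rw [h0]; exact Ideal.zero_mem _
    have hd := chudnovsky_ideal hn (fun i => (P i).rep) (fun i => (P i).rep_nonzero)
      (fun i => t * m i) (by
        obtain ⟨i, hi⟩ := hm
        exact ⟨i, Nat.mul_pos ht hi⟩) A hA r d
      (MvPolynomial.homogeneousComponent_isHomogeneous d F) h0 (fun i hi => by
        have hi' : 1 ≤ m i := by
          by_contra hlt
          have : m i = 0 := by omega
          simp [this] at hi
        have h1 := hF i hi'
        rw [pointIdeal_eq] at h1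
        exact Pool.Agent.Lib.Chud.component_mem
          (Pool.Agent.Lib.Chud.isHomogeneous_pow (Pool.Agent.Lib.Chud.isHomogeneous_Iv _) _) h1 d)
    rw [irr_eq]
    exact Ideal.pow_le_pow_right hd (Pool.Agent.Lib.P5c592f.IsHomogeneous.mem_idealOfVars_pow
      (MvPolynomial.homogeneousComponent_isHomogeneous d F))
  refine ⟨fun F hF => part2 F fun i hi => ?_, part2⟩
  rw [symb, Ideal.mem_iInf] at hF
  refine Ideal.pow_le_pow_right ?_ (hF i)
  rw [mul_assoc]
  apply Nat.mul_le_mul_left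
  obtain ⟨w, hw⟩ : ∃ w, m i = w + 1 := ⟨m i - 1, by omega⟩
  obtain ⟨b, rfl⟩ : ∃ b, n = b + 1 := ⟨n - 1, by omega⟩
  rw [hw]
  have h2 : (t + (b + 1) - 1) * (w + 1) = b * w + (t * (w + 1) + (b + 1) - 1) := by
    have e1 : t + (b + 1) - 1 = t + b := by omega
    have e2 : t * (w + 1) + (b + 1) - 1 = t * (w + 1) + b := by omega
    rw [e1, e2]
    ring
  omega

end Pool.Agent.Results.MP_5aaf1b_ag.InitialDegree
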